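import Pool.Agent.Lib.MP_69b5dd_co.Final

/-!
# Ideal Chomp: the second player wins on `K[x,y,z]`
-/

set_option autoImplicit false

namespace Pool.Agent.Results.MP_69b5dd_co.BWinsThreeVars

open IdealChomp

universe u

/-! ## The game

A play is given by the moves `α 0, α 1, …` of player A and `β 0, β 1, …` of player B:
the elements chosen are `α 0, β 0, α 1, β 1, …`. -/

section Defs

variable {R : Type u} [CommRing R]

/-- The ideal reached after `k` full rounds: `pos 0 = (0)` and
`pos (k + 1) = pos k + (α k) + (β k)`. -/
def pos (α β : ℕ → R) : ℕ → Ideal R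
  | 0 => ⊥
  | k + 1 => pos α β k ⊔ Ideal.span {α k} ⊔ Ideal.span {β k}

/-- The ideal reached after `k` full rounds and one more move `α k` of player A. -/
def mid (α β : ℕ → R) (k : ℕ) : Ideal R := pos α β k ⊔ Ideal.span {α k}

/-- The move `α k` of player A loses: it is illegal (it lies in the current ideal) or it
produces the whole ring. -/
def AFails (α β : ℕ → R) (k : ℕ) : Prop := α k ∈ pos α β k ∨ mid α β k = ⊤

/-- The move `β k` of player B loses: it is illegal (it lies in the current ideal) or it
produces the whole ring. -/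
def BFails (α β : ℕ → R) (k : ℕ) : Prop := β k ∈ mid α β k ∨ pos α β (k + 1) = ⊤

/-- Player A wins the play: some move `β k` of player B loses, and no earlier move of A does. -/
def AWinsPlay (α β : ℕ → R) : Prop := ∃ k, BFails α β k ∧ ∀ j ≤ k, ¬ AFails α β j

/-- Player B wins the play: some move `α k` of player A loses, and no earlier move of B does. -/
def BWinsPlay (α β : ℕ → R) : Prop := ∃ k, AFails α β k ∧ ∀ j < k, ¬ BFails α β j

variable (R) in
/-- Player A (who moves first) can force a win on `R`: there is a strategy `σ`, which gives the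
next move of A from the list of the previous moves of B, that wins every play. -/
def FirstPlayerWins : Prop :=
  ∃ σ : List R → R, ∀ β : ℕ → R, AWinsPlay (fun k => σ ((List.range k).map β)) β

variable (R) in
/-- Player B (who moves second) can force a win on `R`: there is a strategy `σ`, which gives the
next move of B from the list of the previous moves of A, that wins every play. -/
def SecondPlayerWins : Prop :=
  ∃ σ : List R → R, ∀ α : ℕ → R, BWinsPlay α (fun k => σ ((List.range (k + 1)).map α))

end Defs

/-! ## Strategies and positions -/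

section Strategies

variable {R : Type u} [CommRing R]

/-- The two players cannot both have a winning strategy. -/
theorem not_both (hA : FirstPlayerWins R) (hB : SecondPlayerWins R) : False := by
  obtain ⟨σA, hσA⟩ := hA
  obtain ⟨σB, hσB⟩ := hB
  -- the lists of the moves of A and B in the first `k` rounds
  let L : ℕ → List R × List R := fun k => Nat.rec ([], []) (fun _ l =>
    (l.1 ++ [σA l.2], l.2 ++ [σB (l.1 ++ [σA l.2])])) k
  have hL0 : L 0 = ([], []) := rfl
  have hLs : ∀ k, L (k + 1) =
      ((L k).1 ++ [σA (L k).2], (L k).2 ++ [σB ((L k).1 ++ [σA (L k).2])]) := fun k => rfl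
  let α : ℕ → R := fun k => σA (L k).2
  let β : ℕ → R := fun k => σB ((L k).1 ++ [σA (L k).2])
  have hL : ∀ k, L k = ((List.range k).map α, (List.range k).map β) := by
    intro k
    induction k with
    | zero => rw [hL0]; simp
    | succ k ih =>
      rw [hLs, List.range_succ, List.map_append, List.map_append]
      have h1 : (List.range k).map α = (L k).1 := by rw [ih]
      have h2 : (List.range k).map β = (L k).2 := by rw [ih]
      rw [h1, h2]
      rfl
  have hα : (fun k => σA ((List.range k).map β)) = α := by
    funext k
    show σA ((List.range k).map β) = σA (L k).2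
    rw [hL k]
  have hβ : (fun k => σB ((List.range (k + 1)).map α)) = β := by
    funext k
    show σB ((List.range (k + 1)).map α) = σB ((L k).1 ++ [σA (L k).2])
    have h1 : (L (k + 1)).1 = (List.range (k + 1)).map α := by rw [hL (k + 1)]
    rw [← h1, hLs]
  have h1 := hσA β
  have h2 := hσB α
  rw [hα] at h1
  rw [hβ] at h2
  obtain ⟨k, hk, hk'⟩ := h1
  obtain ⟨l, hl, hl'⟩ := h2
  rcases le_or_gt l k with h | h
  · exact hk' l h hl
  · exact hl' k h hk

/-- From the inductive description of won positions to strategies. -/
theorem secondPlayerWins_of_pPos [IsNoetherianRing R] (h : PPos (⊥ : Ideal R)) :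
    SecondPlayerWins R := by
  classical
  -- positional strategy
  have hex : ∀ J : Ideal R, ∃ b : R, MoverWins J →
      b ∉ J ∧ J ⊔ Ideal.span {b} ≠ ⊤ ∧ PPos (J ⊔ Ideal.span {b}) := by
    intro J
    by_cases hJ : MoverWins J
    · cases hJ with
      | intro _ b hb hne hall => exact ⟨b, fun _ => ⟨hb, hne, hall⟩⟩
    · exact ⟨0, fun h => absurd h hJ⟩
  choose τ hτ using hex
  -- the positions computed from the list of moves of A
  let step : Ideal R × Ideal R → R → Ideal R × Ideal R := fun s a =>
    (s.1 ⊔ Ideal.span {a} ⊔ Ideal.span {τ (s.1 ⊔ Ideal.span {a})}, s.1 ⊔ Ideal.span {a})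
  let st : List R → Ideal R × Ideal R := fun l => l.foldl step (⊥, ⊥)
  refine ⟨fun l => τ (st l).2, ?_⟩
  intro α
  set β : ℕ → R := fun k => τ (st ((List.range (k + 1)).map α)).2 with hβ
  have hst : ∀ k, st ((List.range (k + 1)).map α) = step (st ((List.range k).map α)) (α k) := by
    intro k
    show ((List.range (k + 1)).map α).foldl step (⊥, ⊥) = _
    rw [List.range_succ, List.map_append, List.foldl_append]
    rfl
  have hpos : ∀ k, (st ((List.range k).map α)).1 = pos α β k := by
    intro k
    induction k with
    | zero => rfl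
    | succ k ih =>
      have h1 : β k = τ (pos α β k ⊔ Ideal.span {α k}) := by
        show τ (st ((List.range (k + 1)).map α)).2 = _
        rw [hst]
        show τ ((st ((List.range k).map α)).1 ⊔ Ideal.span {α k}) = _
        rw [ih]
      rw [hst]
      show (st ((List.range k).map α)).1 ⊔ Ideal.span {α k} ⊔
        Ideal.span {τ ((st ((List.range k).map α)).1 ⊔ Ideal.span {α k})} = _
      rw [ih, ← h1]
      rfl
  have hβk : ∀ k, β k = τ (mid α β k) := by
    intro k
    show τ (st ((List.range (k + 1)).map α)).2 = _
    rw [hst]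
    show τ ((st ((List.range k).map α)).1 ⊔ Ideal.span {α k}) = _
    rw [hpos]
    rfl
  by_contra hcon
  have hcon' : ∀ k, (∀ j < k, ¬ BFails α β j) → ¬ AFails α β k := by
    intro k hk hA
    exact hcon ⟨k, hA, hk⟩
  have key : ∀ k, (∀ j < k, ¬ BFails α β j) ∧ PPos (pos α β k) := by
    intro k
    induction k with
    | zero => exact ⟨fun j hj => absurd hj (Nat.not_lt_zero j), h⟩
    | succ k ih =>
      obtain ⟨ih1, ih2⟩ := ih
      have hA := hcon' k ih1
      unfold AFails at hA
      push Not at hA
      have hW : MoverWins (mid α β k) := ih2 (α k) hA.1 hA.2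
      obtain ⟨h1, h2, h3⟩ := hτ _ hW
      rw [← hβk] at h1 h2 h3
      refine ⟨?_, h3⟩
      intro j hj
      rcases Nat.lt_succ_iff_lt_or_eq.mp hj with hj | rfl
      · exact ih1 j hj
      · rintro (hb | hb)
        · exact h1 hb
        · exact h2 hb
  obtain ⟨k, hk⟩ := WellFounded.not_rel_apply_succ (r := fun I J : Ideal R => I > J) (pos α β)
  apply hk
  have hA := hcon' k (key k).1
  unfold AFails at hA
  push Not at hA
  show pos α β k < pos α β (k + 1)
  refine lt_of_lt_of_le (lt_of_le_of_ne le_sup_left ?_)
    (le_sup_left : mid α β k ≤ pos α β (k + 1))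
  intro heq
  apply hA.1
  rw [heq]
  exact Ideal.mem_sup_right (Ideal.mem_span_singleton_self _)

end Strategies

/-- **Player B wins Ideal Chomp on `K[x,y,z]`** for every algebraically closed field `K` of
characteristic zero which is not algebraic over `ℚ` (for instance `K = ℂ`); in particular it is
not true that player A wins on `K[x₁,…,xₙ]` for all algebraically closed fields `K` and all
`n ≥ 3`. -/
theorem result :
    (∀ (K : Type u) [Field K] [IsAlgClosed K] [CharZero K], (∃ τ : K, Transcendental ℚ τ) →
      SecondPlayerWins (MvPolynomial (Fin 3) K)) ∧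
    ¬ (∀ (K : Type) [Field K] [IsAlgClosed K] (n : ℕ), 3 ≤ n →
      FirstPlayerWins (MvPolynomial (Fin n) K)) := by
  refine ⟨?_, ?_⟩
  · intro K _ _ _ hτ
    obtain ⟨τ, hτ⟩ := hτ
    exact secondPlayerWins_of_pPos (pPos_bot hτ)
  · intro hall
    have hτ : ∃ τ : ℂ, Transcendental ℚ τ := by
      have h1 := transcendental_liouvilleNumber (m := 2) le_rfl
      refine ⟨algebraMap ℝ ℂ (liouvilleNumber ((2 : ℕ) : ℝ)), ?_⟩
      intro halg
      apply h1
      rw [isAlgebraic_algebraMap_iff (algebraMap ℝ ℂ).injective] at halg
      exact (IsFractionRing.isAlgebraic_iff ℤ ℚ ℝ).mpr halg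
    obtain ⟨τ, hτ⟩ := hτ
    exact not_both (hall ℂ 3 le_rfl) (secondPlayerWins_of_pPos (pPos_bot hτ))

end Pool.Agent.Results.MP_69b5dd_co.BWinsThreeVars
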